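import Pool.Agent.Q19.VOQ.Jfm

/-!
# MP_8ba02c_al, Q1: disproof, also for finitely generated integral forms

There is a vertex operator algebra over the rational numbers (the rank one Heisenberg vertex
operator algebra) with a nondegenerate invariant symmetric bilinear form and a finitely generated
integral form, containing the vacuum, on which the form has unbounded denominators.

The definitions (`VertexAlgebra`, `VOA`, `VOA.IsInvariant`, `VOA.IsIntegralForm`, `VOA.FinGen`)
are in `Pool.Agent.Q19.VOQ.Defs`.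
-/

set_option autoImplicit false

namespace Pool.Agent.Results.MP_8ba02c_al.UnboundedDenominators

open Pool.Agent.Q19.VOQ

theorem result : ∃ (V : Type) (_ : AddCommGroup V) (_ : Module ℚ V) (A : VOA V)
    (B : V →ₗ[ℚ] V →ₗ[ℚ] ℚ) (J : AddSubgroup V),
    ((∀ n : ℤ, n < 0 → A.wt n = ⊥) ∧ A.wt 0 = Submodule.span ℚ {A.one}) ∧
    ((∀ p q, B p q = B q p) ∧ (∀ p, (∀ q, B p q = 0) → p = 0) ∧ A.IsInvariant B ∧
      B A.one A.one = 1) ∧
    A.IsIntegralForm J ∧ A.FinGen J ∧ A.one ∈ J ∧
    ∀ m : ℕ, 0 < m → ∃ a ∈ J, ∃ b ∈ J, ∀ z : ℤ, (m : ℚ) * B a b ≠ z :=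
  final

end Pool.Agent.Results.MP_8ba02c_al.UnboundedDenominators
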